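import Pool.Agent.Q264.HM.Stm

/-! Project HM (helper264), job MAIN (by helper182): long relations between positive words follow
from the short ones. -/

set_option autoImplicit false

namespace Pool.Agent.Q182.HM

open Pool.Agent.Q264.HM

section
variable {I : Type}

/-- the positive word -/
def ps (u : List I) : List (I × Bool) := u.map fun i => (i, true)

/-- the negative word -/
def ng (u : List I) : List (I × Bool) := u.map fun i => (i, false)

/-- the four types of words -/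
def Ty : Fin 4 → List (I × Bool) → Prop
  | 0, w => ∃ u, w = ps u
  | 1, w => ∃ v, w = ng v
  | 2, w => ∃ u v, w = ps u ++ ng v
  | 3, w => ∃ v u, w = ng v ++ ps u

lemma ps_append (u v : List I) : ps (u ++ v) = ps u ++ ps v := List.map_append

lemma ng_append (u v : List I) : ng (u ++ v) = ng u ++ ng v := List.map_append

lemma ps_length (u : List I) : (ps u).length = u.length := List.length_map _

lemma ng_length (u : List I) : (ng u).length = u.length := List.length_map _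

lemma ps_split {u : List I} {a b : List (I × Bool)} (h : ps u = a ++ b) :
    ∃ u1 u2, u = u1 ++ u2 ∧ a = ps u1 ∧ b = ps u2 := by
  obtain ⟨u1, u2, h1, h2, h3⟩ := List.map_eq_append_iff.1 h
  exact ⟨u1, u2, h1, h2.symm, h3.symm⟩

lemma ng_split {u : List I} {a b : List (I × Bool)} (h : ng u = a ++ b) :
    ∃ u1 u2, u = u1 ++ u2 ∧ a = ng u1 ∧ b = ng u2 := by
  obtain ⟨u1, u2, h1, h2, h3⟩ := List.map_eq_append_iff.1 h
  exact ⟨u1, u2, h1, h2.symm, h3.symm⟩

/-- parts of a word of type 2 -/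
lemma split2 {a b : List (I × Bool)} (h : Ty 2 (a ++ b)) :
    (Ty 0 a ∧ Ty 2 b) ∨ (Ty 2 a ∧ Ty 1 b) := by
  obtain ⟨u, v, h⟩ := h
  rcases List.append_eq_append_iff.1 h with ⟨c, h1, h2⟩ | ⟨c, h1, h2⟩
  · obtain ⟨u1, u2, _, e2, e3⟩ := ps_split h1
    exact Or.inl ⟨⟨u1, e2⟩, ⟨u2, v, by rw [h2, e3]⟩⟩
  · obtain ⟨v1, v2, _, e2, e3⟩ := ng_split h2
    exact Or.inr ⟨⟨u, v1, by rw [h1, e2]⟩, ⟨v2, e3⟩⟩

/-- parts of a word of type 3 -/
lemma split3 {a b : List (I × Bool)} (h : Ty 3 (a ++ b)) :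
    (Ty 1 a ∧ Ty 3 b) ∨ (Ty 3 a ∧ Ty 0 b) := by
  obtain ⟨u, v, h⟩ := h
  rcases List.append_eq_append_iff.1 h with ⟨c, h1, h2⟩ | ⟨c, h1, h2⟩
  · obtain ⟨u1, u2, _, e2, e3⟩ := ng_split h1
    exact Or.inl ⟨⟨u1, e2⟩, ⟨u2, v, by rw [h2, e3]⟩⟩
  · obtain ⟨v1, v2, _, e2, e3⟩ := ps_split h2
    exact Or.inr ⟨⟨u, v1, by rw [h1, e2]⟩, ⟨v2, e3⟩⟩

lemma app00 {a b : List (I × Bool)} (h1 : Ty 0 a) (h2 : Ty 0 b) : Ty 0 (a ++ b) := by
  obtain ⟨u, rfl⟩ := h1
  obtain ⟨v, rfl⟩ := h2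
  exact ⟨u ++ v, (ps_append _ _).symm⟩

lemma app11 {a b : List (I × Bool)} (h1 : Ty 1 a) (h2 : Ty 1 b) : Ty 1 (a ++ b) := by
  obtain ⟨u, rfl⟩ := h1
  obtain ⟨v, rfl⟩ := h2
  exact ⟨u ++ v, (ng_append _ _).symm⟩

lemma app02 {a b : List (I × Bool)} (h1 : Ty 0 a) (h2 : Ty 2 b) : Ty 2 (a ++ b) := by
  obtain ⟨u, rfl⟩ := h1
  obtain ⟨v, x, rfl⟩ := h2
  exact ⟨u ++ v, x, by rw [ps_append, List.append_assoc]⟩

lemma app21 {a b : List (I × Bool)} (h1 : Ty 2 a) (h2 : Ty 1 b) : Ty 2 (a ++ b) := by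
  obtain ⟨u, x, rfl⟩ := h1
  obtain ⟨v, rfl⟩ := h2
  exact ⟨u, x ++ v, by rw [ng_append, List.append_assoc]⟩

lemma app13 {a b : List (I × Bool)} (h1 : Ty 1 a) (h2 : Ty 3 b) : Ty 3 (a ++ b) := by
  obtain ⟨u, rfl⟩ := h1
  obtain ⟨v, x, rfl⟩ := h2
  exact ⟨u ++ v, x, by rw [ng_append, List.append_assoc]⟩

lemma app30 {a b : List (I × Bool)} (h1 : Ty 3 a) (h2 : Ty 0 b) : Ty 3 (a ++ b) := by
  obtain ⟨u, x, rfl⟩ := h1
  obtain ⟨v, rfl⟩ := h2
  exact ⟨u, x ++ v, by rw [ps_append, List.append_assoc]⟩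

lemma t02 {a : List (I × Bool)} (h : Ty 0 a) : Ty 2 a := by
  obtain ⟨u, rfl⟩ := h
  exact ⟨u, [], by simp [ng]⟩

lemma t03 {a : List (I × Bool)} (h : Ty 0 a) : Ty 3 a := by
  obtain ⟨u, rfl⟩ := h
  exact ⟨[], u, by simp [ng]⟩

lemma t12 {a : List (I × Bool)} (h : Ty 1 a) : Ty 2 a := by
  obtain ⟨u, rfl⟩ := h
  exact ⟨[], u, by simp [ps]⟩

lemma t13 {a : List (I × Bool)} (h : Ty 1 a) : Ty 3 a := by
  obtain ⟨u, rfl⟩ := h
  exact ⟨u, [], by simp [ps]⟩

/-- splitting by types -/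
lemma split_ty (τ : Fin 4) {a b : List (I × Bool)} (h : Ty τ (a ++ b)) :
    ∃ τ₁ τ₂ : Fin 4, Ty τ₁ a ∧ Ty τ₂ b ∧
      ∀ a' b' : List (I × Bool), Ty τ₁ a' → Ty τ₂ b' → Ty τ (a' ++ b') := by
  match τ, h with
  | 0, h =>
    obtain ⟨u, h⟩ := h
    obtain ⟨u1, u2, _, e2, e3⟩ := ps_split h.symm
    exact ⟨0, 0, ⟨u1, e2⟩, ⟨u2, e3⟩, fun a' b' h1 h2 => app00 h1 h2⟩
  | 1, h =>
    obtain ⟨u, h⟩ := h
    obtain ⟨u1, u2, _, e2, e3⟩ := ng_split h.symm
    exact ⟨1, 1, ⟨u1, e2⟩, ⟨u2, e3⟩, fun a' b' h1 h2 => app11 h1 h2⟩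
  | 2, h =>
    rcases split2 h with ⟨h1, h2⟩ | ⟨h1, h2⟩
    · exact ⟨0, 2, h1, h2, fun a' b' h1 h2 => app02 h1 h2⟩
    · exact ⟨2, 1, h1, h2, fun a' b' h1 h2 => app21 h1 h2⟩
  | 3, h =>
    rcases split3 h with ⟨h1, h2⟩ | ⟨h1, h2⟩
    · exact ⟨1, 3, h1, h2, fun a' b' h1 h2 => app13 h1 h2⟩
    · exact ⟨3, 0, h1, h2, fun a' b' h1 h2 => app30 h1 h2⟩

variable {G : Type} [Group G] (y : I → G)

lemma val_append (a b : List (I × Bool)) : val y (a ++ b) = val y a * val y b := by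
  unfold val
  rw [List.map_append, List.prod_append]

lemma val_ps (u : List I) : val y (ps u) = (u.map y).prod := by
  unfold val ps
  rw [List.map_map]
  rfl

lemma val_ng (u : List I) : val y (ng u) = ((u.reverse.map y).prod)⁻¹ := by
  induction u with
  | nil => simp [val, ng]
  | cons i u ih =>
    have h1 : ng (i :: u) = [(i, false)] ++ ng u := rfl
    have h2 : val y [(i, false)] = (y i)⁻¹ := by simp [val]
    rw [h1, val_append, ih, h2, List.reverse_cons, List.map_append, List.prod_append,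
      mul_inv_rev]
    simp

end

/-- **JOB MAIN** -/
theorem t_MAIN (hDOUB : S_DOUB) : S_MAIN := by
  classical
  intro H G _ _ I s g B K h1B hsplit hK hshort
  -- bounded lengths
  have BD : ∀ (τ : Fin 4) (w : List (I × Bool)), Ty τ w → val s w ∈ B →
      ∃ w' : List (I × Bool), Ty τ w' ∧ val s w' = val s w ∧ w'.length ≤ 2 ^ (4 * B.card) := by
    intro τ w hw hB
    have h1 := hDOUB ({h // h ∈ B} × Fin 4)
      (fun N m => ∃ w : List (I × Bool), Ty N.2 w ∧ w.length = m ∧ val s w = N.1.1) ?_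
      (⟨val s w, hB⟩, τ) w.length ⟨w, hw, rfl, rfl⟩
    · obtain ⟨m', hm', w', e1, e2, e3⟩ := h1
      refine ⟨w', e1, e3, ?_⟩
      rw [e2]
      refine hm'.trans (le_of_eq ?_)
      rw [Fintype.card_prod, Fintype.card_coe, Fintype.card_fin, mul_comm]
    · rintro ⟨⟨h, hh⟩, σ⟩ m hm ⟨x, e1, e2, e3⟩
      have e3' : val s x = h := e3
      obtain ⟨x1, x2, f1, f2, f3, f4, f5⟩ := hsplit x (by rw [e2]; exact hm) (by rw [e3']; exact hh)
      have e1' : Ty σ (x1 ++ x2) := by rw [← f1]; exact e1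
      obtain ⟨τ₁, τ₂, g1, g2, g3⟩ := split_ty σ e1'
      refine ⟨(⟨val s x1, f4⟩, τ₁), (⟨val s x2, f5⟩, τ₂), x1.length, x2.length,
        List.length_pos_of_ne_nil f2, List.length_pos_of_ne_nil f3, ?_, ⟨x1, g1, rfl, rfl⟩,
        ⟨x2, g2, rfl, rfl⟩, ?_⟩
      · rw [← e2, f1, List.length_append]
      · rintro a b ⟨z1, k1, k2, k3⟩ ⟨z2, l1, l2, l3⟩
        refine ⟨z1 ++ z2, g3 z1 z2 k1 l1, by rw [List.length_append, k2, l2], ?_⟩
        have k3' : val s z1 = val s x1 := k3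
        have l3' : val s z2 = val s x2 := l3
        show val s (z1 ++ z2) = h
        rw [val_append, k3', l3', ← val_append, ← f1, e3']
  obtain ⟨K₀, hK₀⟩ : ∃ K₀, K₀ = 2 ^ (4 * B.card) := ⟨_, rfl⟩
  rw [← hK₀] at hK BD
  have hK₀1 : 1 ≤ K₀ := by rw [hK₀]; exact Nat.one_le_two_pow
  -- short relations
  have SR : ∀ a b : List (I × Bool), Ty 2 a → Ty 3 b → a.length ≤ 2 * K₀ → b.length ≤ K₀ →
      val s a = val s b → val g a = val g b := by
    rintro a b ⟨u, v, rfl⟩ ⟨x, z, rfl⟩ ha hb hab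
    rw [List.length_append, ps_length, ng_length] at ha
    rw [List.length_append, ps_length, ng_length] at hb
    rw [val_append, val_append, val_ps, val_ng, val_ng, val_ps] at hab ⊢
    have h1 : ((x.reverse ++ u).map s).prod = ((z ++ v.reverse).map s).prod := by
      rw [List.map_append, List.map_append, List.prod_append, List.prod_append]
      rw [mul_inv_eq_iff_eq_mul] at hab
      rw [hab]
      group
    have h2 := hshort _ _ (by rw [List.length_append, List.length_reverse]; omega)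
      (by rw [List.length_append, List.length_reverse]; omega) h1
    rw [List.map_append, List.map_append, List.prod_append, List.prod_append] at h2
    rw [mul_inv_eq_iff_eq_mul, mul_assoc, ← h2]
    group
  -- the claim
  have CL : ∀ (m : ℕ) (w b : List (I × Bool)), w.length ≤ m → Ty 2 w → val s w ∈ B → Ty 3 b →
      b.length ≤ K₀ → val s b = val s w → val g w = val g b := by
    intro m
    induction m with
    | zero =>
      intro w b hwm hw hB hb hbK hv
      exact SR w b hw hb (by omega) hbK hv.symm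
    | succ m ih =>
      intro w b hwm hw hB hb hbK hv
      by_cases hlen : w.length < 2
      · exact SR w b hw hb (by omega) hbK hv.symm
      · obtain ⟨w1, w2, f1, f2, f3, f4, f5⟩ := hsplit w (by omega) hB
        subst f1
        have l1 := List.length_pos_of_ne_nil f2
        have l2 := List.length_pos_of_ne_nil f3
        rw [List.length_append] at hwm
        have key : ∀ a1 a2 b1 b2 : List (I × Bool), Ty 2 w1 → Ty 2 w2 → Ty 2 a1 → Ty 2 a2 →
            Ty 2 (a1 ++ a2) → Ty 3 b1 → Ty 3 b2 → a1.length ≤ K₀ → a2.length ≤ K₀ →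
            b1.length ≤ K₀ → b2.length ≤ K₀ → val s a1 = val s w1 → val s a2 = val s w2 →
            val s b1 = val s w1 → val s b2 = val s w2 → val g (w1 ++ w2) = val g b := by
          intro a1 a2 b1 b2 t1 t2 t3 t4 t5 t6 t7 m1 m2 m3 m4 v1 v2 v3 v4
          have i1 := ih w1 b1 (by omega) t1 f4 t6 m3 v3
          have i2 := ih w2 b2 (by omega) t2 f5 t7 m4 v4
          have i3 := SR a1 b1 t3 t6 (by omega) m3 (v1.trans v3.symm)
          have i4 := SR a2 b2 t4 t7 (by omega) m4 (v2.trans v4.symm)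
          have i5 := SR (a1 ++ a2) b t5 hb (by rw [List.length_append]; omega) hbK (by
            rw [hv, val_append, val_append, v1, v2])
          rw [val_append, i1, i2, ← i3, ← i4, ← val_append, i5]
        rcases split2 hw with ⟨t1, t2⟩ | ⟨t1, t2⟩
        · -- `w1` positive
          obtain ⟨u, hu⟩ := id t1
          obtain ⟨b1, p1, p2, p3⟩ := BD 3 w1 (t03 t1) f4
          have hinv : val s (ng u.reverse ++ b) = val s w2 := by
            rw [val_append, val_ng, List.reverse_reverse, hv, val_append, hu, val_ps]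
            group
          obtain ⟨b2, q1, q2, q3⟩ := BD 3 (ng u.reverse ++ b) (app13 ⟨_, rfl⟩ hb)
            (by rw [hinv]; exact f5)
          obtain ⟨a1, r1, r2, r3⟩ := BD 0 w1 t1 f4
          obtain ⟨a2, o1, o2, o3⟩ := BD 2 w2 t2 f5
          exact key a1 a2 b1 b2 (t02 t1) t2 (t02 r1) o1 (app02 r1 o1) p1 q1 r3 o3 p3 q3 r2 o2 p2
            (q2.trans hinv)
        · -- `w2` negative
          obtain ⟨u, hu⟩ := id t2
          obtain ⟨b2, p1, p2, p3⟩ := BD 3 w2 (t13 t2) f5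
          have hinv : val s (b ++ ps u.reverse) = val s w1 := by
            rw [val_append, val_ps, hv, val_append, hu, val_ng]
            group
          obtain ⟨b1, q1, q2, q3⟩ := BD 3 (b ++ ps u.reverse) (app30 hb ⟨_, rfl⟩)
            (by rw [hinv]; exact f4)
          obtain ⟨a2, r1, r2, r3⟩ := BD 1 w2 t2 f5
          obtain ⟨a1, o1, o2, o3⟩ := BD 2 w1 t1 f4
          exact key a1 a2 b1 b2 t1 (t12 t2) o1 (t12 r1) (app21 o1 r1) q1 p1 o3 r3 q3 p3 o2 r2
            (q2.trans hinv) p2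
  -- positive words
  intro u v huv
  have h1 : val s (ps u ++ ng v.reverse) = 1 := by
    rw [val_append, val_ps, val_ng, List.reverse_reverse, huv, mul_inv_cancel]
  have h2 := CL _ (ps u ++ ng v.reverse) [] le_rfl ⟨u, v.reverse, rfl⟩ (by rw [h1]; exact h1B)
    ⟨[], [], rfl⟩ (Nat.zero_le _) (by rw [h1]; rfl)
  have h3 : val g ([] : List (I × Bool)) = 1 := rfl
  rw [val_append, val_ps, val_ng, List.reverse_reverse, h3, mul_inv_eq_one] at h2
  exact h2

end Pool.Agent.Q182.HM
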